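import Pool.Agent.Work.MP_faea85_an.Main

set_option autoImplicit false

namespace Pool.Agent.Results.MP_faea85_an.HilbertExample

open Pool.Agent.Work.MPfaea85

/-- Over `ℝ` and over `ℂ` there are a Hilbert space `X` and a bounded linear operator `T` on `X`
which is weakly sequentially hypercyclic but not hypercyclic. -/
theorem result (𝕜 : Type) [RCLike 𝕜] :
    ∃ (X : Type) (_ : NormedAddCommGroup X) (_ : InnerProductSpace 𝕜 X) (_ : CompleteSpace X)
      (T : X →L[𝕜] X), WeaklySeqHypercyclic T ∧ ¬ Hypercyclic T :=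
  ⟨lp (fun _ : ℕ => lp (fun _ : ℕ => 𝕜) 2) 2, inferInstance, inferInstance, inferInstance,
    T (e_orthonormal 𝕜), wsh 𝕜, not_hypercyclic (e_orthonormal 𝕜)⟩

end Pool.Agent.Results.MP_faea85_an.HilbertExample
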